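import Pool.Agent.Y58.HT.Stm4

/-!
# A finite group has finite transitivity degree
-/

set_option autoImplicit false

universe u

namespace Pool.Agent.Y975.HT

open H361P Pool.Agent.Y58.HT

/-- a finite group has finite transitivity degree -/
theorem t_ft : S_FT.{u} := by
  classical
  intro G _ _ h
  have hle : td G ≤ (Nat.card G : ℕ∞) := by
    unfold td
    refine iSup₂_le fun k hk => ?_
    obtain ⟨hk1, Ω, _, -, ⟨f, hf⟩, htr⟩ := hk
    have : NeZero k := ⟨by omega⟩
    have h1 : ∀ j : Fin k, ∃ g : G, g • f 0 = f j := by
      intro j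
      obtain ⟨g, hg⟩ := htr f (f ∘ Equiv.swap 0 j) hf (hf.comp (Equiv.injective _))
      refine ⟨g, ?_⟩
      have h2 := hg 0
      rw [Function.comp_apply, Equiv.swap_apply_left] at h2
      exact h2
    choose g hg using h1
    have hinj : Function.Injective g := by
      intro i j hij
      apply hf
      rw [← hg i, ← hg j, hij]
    have h3 := Nat.card_le_card_of_injective g hinj
    rw [Nat.card_fin] at h3
    exact_mod_cast h3
  rw [h] at hle
  exact absurd (top_le_iff.1 hle) (ENat.coe_ne_top _)

end Pool.Agent.Y975.HT
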