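import Mathlib
import Pool.Agent.Y58.HT.Stm

/-!
# An element of `PGL(2,F)` fixing three points; from finitely generated groups to local finiteness
-/

set_option autoImplicit false

universe u

namespace Pool.Agent.Y975.HT

open Matrix H361P Pool.Agent.Y58.HT
open scoped MatrixGroups LinearAlgebra.Projectivization

/-- an element of `PGL(2,F)` fixing three points is trivial -/
theorem t_fx3 : S_FX3.{u} := by
  intro F _ m p q o hpq hpo hqo h1 h2 h3
  obtain ⟨g, hg⟩ := exists_to_triple ![p, q, o] (by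
    intro i j hij
    fin_cases i <;> fin_cases j
    · rfl
    · exact absurd hij hpq
    · exact absurd hij hpo
    · exact absurd hij.symm hpq
    · rfl
    · exact absurd hij hqo
    · exact absurd hij.symm hpo
    · exact absurd hij.symm hqo
    · rfl)
  have hm : ∀ i, m • (![p, q, o] : Fin 3 → ℙ F (Fin 2 → F)) i = ![p, q, o] i := by
    intro i
    fin_cases i
    · exact h1
    · exact h2
    · exact h3
  have h : ∀ i, (g⁻¹ * m * g) • (std3 i : ℙ F (Fin 2 → F)) = std3 i := by
    intro i
    rw [mul_smul, mul_smul, hg i, hm i, ← hg i, inv_smul_smul]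
  have e1 : (g⁻¹ * m * g) • (pb true : ℙ F (Fin 2 → F)) = pb true := h 0
  have e2 : (g⁻¹ * m * g) • (pb false : ℙ F (Fin 2 → F)) = pb false := h 1
  have e3 : (g⁻¹ * m * g) • (pt 1 : ℙ F (Fin 2 → F)) = pt 1 := h 2
  have key : ProjGenLinGroup.mk (g⁻¹ * m * g) = 1 := by
    generalize g⁻¹ * m * g = m' at e1 e2 e3
    simp only [pb, pt, Projectivization.smul_mk] at e1 e2 e3
    have f1 := wd_of_mk_eq _ _ e1
    have f2 := wd_of_mk_eq _ _ e2
    have f3 := wd_of_mk_eq _ _ e3
    simp [wd, eb] at f1 f2 f3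
    apply mk_eq_one_of_entries
    · exact f2
    · exact f1
    · rw [f1, f2] at f3; linear_combination f3
  rw [map_mul, map_mul, map_inv] at key
  have h4 : ProjGenLinGroup.mk m =
      ProjGenLinGroup.mk g * ((ProjGenLinGroup.mk g)⁻¹ * ProjGenLinGroup.mk m *
        ProjGenLinGroup.mk g) * (ProjGenLinGroup.mk g)⁻¹ := by group
  rw [h4, key]
  group

/-- from finitely generated groups to local finiteness -/
theorem t_lf (h : S_FIN.{u}) : S_LF.{u} := by
  classical
  intro K _ _ G hNF hL T hT
  obtain ⟨p0⟩ : Nonempty (ℙ K (Fin 2 → K)) := ⟨pt 0⟩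
  obtain ⟨m0, hm0, hp0⟩ := hNF p0
  have hfin : {x : ℙ K (Fin 2 → K) | m0 • x = x}.Finite := by
    by_contra hinf
    obtain ⟨t, ht, htc⟩ := Set.Infinite.exists_subset_card_eq hinf 3
    obtain ⟨x, y, z, hxy, hxz, hyz, rfl⟩ := Finset.card_eq_three.1 htc
    have hx : m0 • x = x := ht (by simp)
    have hy : m0 • y = y := ht (by simp)
    have hz : m0 • z = z := ht (by simp)
    have h1 := t_fx3 m0 x y z hxy hxz hyz hx hy hz
    apply hp0
    let _ : MulAction (PGL(2, K)) (ℙ K (Fin 2 → K)) := actPGL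
    have h2 : (ProjGenLinGroup.mk m0 : PGL(2, K)) • p0 = p0 := by rw [h1, one_smul]
    exact h2
  choose mm hmG hmm using hNF
  set S : Set (PGL(2, K)) := (G.subtype '' T) ∪ {ProjGenLinGroup.mk m0} ∪
    ((fun x => ProjGenLinGroup.mk (mm x)) '' {x : ℙ K (Fin 2 → K) | m0 • x = x}) with hS
  have hSfin : S.Finite := ((hT.image _).union (Set.finite_singleton _)).union (hfin.image _)
  have hSG : Subgroup.closure S ≤ G := by
    rw [Subgroup.closure_le]
    rintro g ((⟨t, -, rfl⟩ | hg) | ⟨x, -, rfl⟩)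
    · exact t.2
    · rw [Set.mem_singleton_iff] at hg
      rw [hg]
      exact hm0
    · exact hmG x
  have hNFS : NoFix (Subgroup.closure S) := by
    intro p
    by_cases hp : m0 • p = p
    · exact ⟨mm p, Subgroup.subset_closure (Or.inr ⟨p, hp, rfl⟩), hmm p⟩
    · exact ⟨m0, Subgroup.subset_closure (Or.inl (Or.inr rfl)), hp⟩
  have hfinS := h S hSfin hNFS fun g hg => hL g (hSG hg)
  have hle : (Subgroup.closure T).map G.subtype ≤ Subgroup.closure S := by
    rw [MonoidHom.map_closure]
    exact Subgroup.closure_mono fun x hx => Or.inl (Or.inl hx)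
  exact Finite.of_injective
    (fun x : Subgroup.closure T => (⟨((x : G) : PGL(2, K)), hle ⟨x, x.2, rfl⟩⟩ :
      Subgroup.closure S)) (by
    intro x y hxy
    have h1 := congrArg Subtype.val hxy
    exact Subtype.ext (Subtype.ext h1))

end Pool.Agent.Y975.HT
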